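import Pool.Agent.Helper43.DV.Fin
import Pool.Agent.Helper31.DV.Defs

/-! There is no data in the sense of `Helper31.DV.Dat`. -/

set_option autoImplicit false

universe u

namespace Pool.Agent.Helper43.DV

theorem no_dat {P : Type u} [PartialOrder P] (T : Pool.Agent.Helper31.DV.Dat P) : False :=
  Dat.false (P := P)
    { f := T.f, s := T.s, D := T.D, U := T.U, be := T.be, cc := T.cc, bb := T.bb, wf := T.wf,
      wg := T.wg, nle := T.nle, nge := T.nge, cov := T.cov, dis := T.dis, bs := T.bs, bw := T.bw,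
      bm := T.bm, cs := T.cs, cx := T.cx, cm := T.cm, b1 := T.b1, b2 := T.b2, b3 := T.b3,
      b4 := T.b4,
      b5 := fun x hx y hy v hv w hw h1 h2 h3 h4 =>
        (T.b5 x hx v hv w hw h1 h4).trans (T.b6 w hw x hx y hy h2 h3)
      n1 := T.n1, n2 := T.n2 }

end Pool.Agent.Helper43.DV
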