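import Pool.Agent.Helper73.DU.Core

/-! Fixed points of order-preserving maps when there is no chain `D < D < D < U < U` and no chain
`D < D < U < U < U` (lowest element `≤ s`, highest element `≥ s`). The data are self-dual. -/

set_option autoImplicit false

universe u

namespace Pool.Agent.Helper43.DV

open Pool.Agent.Helper73.DU (Ex Ex.memU Ex.memD Ex.congr)

/-- The data of a monotone map without fixed point. -/
structure Dat (P : Type u) [PartialOrder P] where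
  f : P → P
  s : P
  D : Set P
  U : Set P
  be : P → P
  cc : P → P
  bb : P → P → P
  wf : WellFounded (fun a b : P => a < b)
  wg : WellFounded (fun a b : P => b < a)
  nle : ∀ x, ¬ x ≤ f x
  nge : ∀ x, ¬ f x ≤ x
  cov : ∀ y, y ∈ D ∨ y ∈ U
  dis : ∀ x ∈ D, x ∈ U → False
  bs : ∀ w ∈ U, be w ≤ s
  bw : ∀ w ∈ U, be w ≤ f w
  bm : ∀ v ∈ U, ∀ w ∈ U, v ≤ w → be v ≤ be w
  cs : ∀ x ∈ D, s ≤ cc x
  cx : ∀ x ∈ D, f x ≤ cc x
  cm : ∀ x ∈ D, ∀ y ∈ D, x ≤ y → cc x ≤ cc y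
  b1 : ∀ x ∈ D, ∀ w ∈ U, x < w → be w ≤ bb x w
  b2 : ∀ x ∈ D, ∀ w ∈ U, x < w → f x ≤ bb x w
  b3 : ∀ x ∈ D, ∀ w ∈ U, x < w → bb x w ≤ f w
  b4 : ∀ x ∈ D, ∀ w ∈ U, x < w → bb x w ≤ cc x
  b5 : ∀ x ∈ D, ∀ y ∈ D, ∀ v ∈ U, ∀ w ∈ U, x < v → y < w → x ≤ y → v ≤ w → bb x v ≤ bb y w
  n1 : ∀ a ∈ D, ∀ b ∈ D, ∀ c ∈ D, ∀ d ∈ U, ∀ e ∈ U, a < b → b < c → c < d → d < e → a ≤ s →
    s ≤ e → False
  n2 : ∀ a ∈ D, ∀ b ∈ D, ∀ c ∈ U, ∀ d ∈ U, ∀ e ∈ U, a < b → b < c → c < d → d < e → a ≤ s →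
    s ≤ e → False

variable {P : Type u} [PartialOrder P]

/-- the order dual -/
def Dat.dual (T : Dat P) : Dat Pᵒᵈ where
  f := T.f
  s := T.s
  D := T.U
  U := T.D
  be := T.cc
  cc := T.be
  bb := fun x w => T.bb w x
  wf := T.wg
  wg := T.wf
  nle := T.nge
  nge := T.nle
  cov := fun y => (T.cov y).symm
  dis := fun x hx hx' => T.dis x hx' hx
  bs := T.cs
  bw := T.cx
  bm := fun v hv w hw h => T.cm w hw v hv h
  cs := T.bs
  cx := T.bw
  cm := fun v hv w hw h => T.bm w hw v hv h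
  b1 := fun x hx w hw h => T.b4 w hw x hx h
  b2 := fun x hx w hw h => T.b3 w hw x hx h
  b3 := fun x hx w hw h => T.b2 w hw x hx h
  b4 := fun x hx w hw h => T.b1 w hw x hx h
  b5 := fun x hx y hy v hv w hw h1 h2 h3 h4 => T.b5 w hw v hv y hy x hx h2 h1 h4 h3
  n1 := fun a ha b hb c hc d hd e he h1 h2 h3 h4 h5 h6 =>
    T.n2 e he d hd c hc b hb a ha h4 h3 h2 h1 h6 h5
  n2 := fun a ha b hb c hc d hd e he h1 h2 h3 h4 h5 h6 =>
    T.n1 e he d hd c hc b hb a ha h4 h3 h2 h1 h6 h5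

/-- the orbit of `v` under `be` leaves `U` at `d` -/
abbrev Dat.ExD (T : Dat P) (v d : P) : Prop := Ex T.U T.D T.be v d

theorem Dat.lt_DU (T : Dat P) {x w : P} (hx : x ∈ T.D) (hw : w ∈ T.U) (h : x ≤ w) : x < w :=
  lt_of_le_of_ne h (fun he => T.dis x hx (he ▸ hw))

theorem Dat.lt_UD (T : Dat P) {x w : P} (hx : x ∈ T.U) (hw : w ∈ T.D) (h : x ≤ w) : x < w :=
  lt_of_le_of_ne h (fun he => T.dis w hw (he ▸ hx))

theorem Dat.uniq (T : Dat P) {v d : P} (h : T.ExD v d) : ∀ {e : P}, T.ExD v e → d = e := by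
  induction h with
  | @one v h1 h2 =>
    intro e he
    cases he with
    | one g1 g2 => rfl
    | step g1 g2 g3 => exact (T.dis _ h2 g2).elim
  | @step v d h1 h2 _ ih =>
    intro e he
    cases he with
    | one g1 g2 => exact (T.dis _ g2 h2).elim
    | step g1 g2 g3 => exact ih g3

theorem Dat.be_ne (T : Dat P) {v : P} (hv : v ∈ T.U) : T.be v ≠ v := by
  intro h
  apply T.nle v
  have h1 := T.bw v hv
  rwa [h] at h1

theorem Dat.exit_le (T : Dat P) {v d : P} (h : T.ExD v d) : T.be v ≤ v →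
    d ≤ T.be v ∧ ∃ u ∈ T.U, u ≤ v ∧ T.be u = d ∧ d ≤ u := by
  induction h with
  | @one v h1 h2 =>
    intro h
    exact ⟨le_rfl, v, h1, le_rfl, rfl, h⟩
  | @step v d h1 h2 _ ih =>
    intro h
    have h3 : T.be (T.be v) ≤ T.be v := T.bm _ h2 _ h1 h
    obtain ⟨i1, u, i2, i3, i4, i5⟩ := ih h3
    exact ⟨i1.trans h3, u, i2, i3.trans h, i4, i5⟩

theorem Dat.exit_le_s (T : Dat P) {v d : P} (h : T.ExD v d) (h' : T.be v ≤ v) : d ≤ T.s := by
  obtain ⟨-, u, hu, -, he, -⟩ := T.exit_le h h'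
  rw [← he]
  exact T.bs u hu

theorem Dat.exists_exit (T : Dat P) : ∀ v : P, v ∈ T.U → T.be v ≤ v → ∃ d, T.ExD v d := by
  intro v
  induction v using T.wf.induction with
  | _ v ih =>
    intro hv h
    have hlt : T.be v < v := lt_of_le_of_ne h (T.be_ne hv)
    rcases T.cov (T.be v) with hD | hU
    · exact ⟨T.be v, Ex.one hv hD⟩
    · obtain ⟨d, hd⟩ := ih (T.be v) hlt hU (T.bm _ hU _ hv h)
      exact ⟨d, Ex.step hv hU hd⟩

theorem Dat.cmp (T : Dat P) {v d : P} (h : T.ExD v d) : ∀ {w e : P}, T.ExD w e → w ≤ v →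
    T.be v ≤ w → d ≤ e ∨ e ≤ d := by
  induction h with
  | @one v h1 h2 =>
    intro w e hw h3 h4
    right
    have h5 : T.be w ≤ T.be v := T.bm _ hw.memU _ h1 h3
    exact (T.exit_le hw (h5.trans h4)).1.trans h5
  | @step v d h1 h2 hvd ih =>
    intro w e hw h3 h4
    have hwU : w ∈ T.U := hw.memU
    have h5 : T.be w ≤ T.be v := T.bm _ hwU _ h1 h3
    have h6 : T.be (T.be v) ≤ T.be w := T.bm _ h2 _ hwU h4
    cases hw with
    | one g1 g2 =>
      left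
      exact (T.exit_le hvd (h6.trans h5)).1.trans h6
    | step g1 g2 g3 => exact ih g3 h5 h6

theorem Dat.bb_ne_left (T : Dat P) {d v : P} (hd : d ∈ T.D) (hv : v ∈ T.U) (hdv : d < v) :
    T.bb d v ≠ d := by
  intro he
  apply T.nge d
  have h2 := T.b2 d hd v hv hdv
  rwa [he] at h2

theorem Dat.bb_ne_right (T : Dat P) {d v : P} (hd : d ∈ T.D) (hv : v ∈ T.U) (hdv : d < v) :
    T.bb d v ≠ v := by
  intro he
  apply T.nle v
  have h2 := T.b3 d hd v hv hdv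
  rwa [he] at h2

theorem Dat.lt_bb (T : Dat P) {d v : P} (hd : d ∈ T.D) (hdv : d < v) (h : T.ExD v d)
    (ha : T.be v ≤ v) : d < T.bb d v := by
  have hv : v ∈ T.U := h.memU
  obtain ⟨-, u, hu, huv, hud, -⟩ := T.exit_le h ha
  refine lt_of_le_of_ne ?_ (T.bb_ne_left hd hv hdv).symm
  have h1 : T.be u ≤ T.bb d v := (T.bm u hu v hv huv).trans (T.b1 d hd v hv hdv)
  rwa [hud] at h1

/-- two comparable different elements of `D` below three elements of `U` -/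
theorem Dat.n2' (T : Dat P) {a b c d e : P} (ha : a ∈ T.D) (hb : b ∈ T.D) (hc : c ∈ T.U)
    (hd : d ∈ T.U) (he : e ∈ T.U) (hab : a ≤ b ∨ b ≤ a) (hne : a ≠ b) (h1 : a < c) (h2 : b < c)
    (h3 : c < d) (h4 : d < e) (h5 : a ≤ T.s) (h5' : b ≤ T.s) (h6 : T.s ≤ e) : False := by
  rcases hab with h | h
  · exact T.n2 a ha b hb c hc d hd e he (lt_of_le_of_ne h hne) h2 h3 h4 h5 h6
  · exact T.n2 b hb a ha c hc d hd e he (lt_of_le_of_ne h hne.symm) h1 h3 h4 h5' h6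

theorem Dat.n1' (T : Dat P) {a b c d e : P} (ha : a ∈ T.D) (hb : b ∈ T.D) (hc : c ∈ T.D)
    (hd : d ∈ T.U) (he : e ∈ T.U) (hab : a ≤ b ∨ b ≤ a) (hne : a ≠ b) (h1 : a < c) (h2 : b < c)
    (h3 : c < d) (h4 : d < e) (h5 : a ≤ T.s) (h5' : b ≤ T.s) (h6 : T.s ≤ e) : False := by
  rcases hab with h | h
  · exact T.n1 a ha b hb c hc d hd e he (lt_of_le_of_ne h hne) h2 h3 h4 h5 h6
  · exact T.n1 b hb a ha c hc d hd e he (lt_of_le_of_ne h hne.symm) h1 h3 h4 h5' h6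

/-- a chain of five elements with a middle element of any kind -/
theorem Dat.n3 (T : Dat P) {a b c d e : P} (ha : a ∈ T.D) (hb : b ∈ T.D)
    (hd : d ∈ T.U) (he : e ∈ T.U) (h1 : a < b) (h2 : b < c)
    (h3 : c < d) (h4 : d < e) (h5 : a ≤ T.s) (h6 : T.s ≤ e) : False := by
  rcases T.cov c with hc | hc
  · exact T.n1 a ha b hb c hc d hd e he h1 h2 h3 h4 h5 h6
  · exact T.n2 a ha b hb c hc d hd e he h1 h2 h3 h4 h5 h6

/-- the middle point of `d, v` and its exit -/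
theorem Dat.mid (T : Dat P) {d v : P} (hdv : d < v) (h : T.ExD v d) (ha : T.be v ≤ v)
    (hm : T.bb d v ≤ v) (hU : T.bb d v ∈ T.U) :
    ∃ e, e < T.bb d v ∧ T.ExD (T.bb d v) e ∧ T.be (T.bb d v) ≤ T.bb d v ∧ (d ≤ e ∨ e ≤ d) := by
  have hd : d ∈ T.D := h.memD
  have hv : v ∈ T.U := h.memU
  have h4 : T.be v ≤ T.bb d v := T.b1 d hd v hv hdv
  have h3 : T.be (T.bb d v) ≤ T.bb d v := (T.bm _ hU v hv hm).trans h4
  obtain ⟨e, he⟩ := T.exists_exit (T.bb d v) hU h3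
  exact ⟨e, T.lt_DU he.memD hU ((T.exit_le he h3).1.trans h3), he, h3, T.cmp h he hm h4⟩

theorem Dat.desc (T : Dat P) {w Y : P} (hw : w ∈ T.U) (hY : Y ∈ T.U) (hwY : w < Y)
    (hsY : T.s ≤ Y) : ∀ v : P, ∀ d : P, d < v → v < w → T.ExD v d → T.be v ≤ v →
      T.bb d v ≤ v → False := by
  intro v
  induction v using T.wf.induction with
  | _ v ih =>
    intro d hdv hvw h ha hm
    have hd : d ∈ T.D := h.memD
    have hv : v ∈ T.U := h.memU
    have h1 : d < T.bb d v := T.lt_bb hd hdv h ha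
    have h2 : T.bb d v < v := lt_of_le_of_ne hm (T.bb_ne_right hd hv hdv)
    rcases T.cov (T.bb d v) with hD | hU
    · exact T.n2 d hd _ hD v hv w hw Y hY h1 h2 hvw hwY (T.exit_le_s h ha) hsY
    · obtain ⟨e, g1, g2, g3, g4⟩ := T.mid hdv h ha hm hU
      by_cases hed : d = e
      · subst hed
        exact ih _ h2 d h1 (h2.trans hvw) g2 g3 (T.b5 d hd d hd _ hU v hv h1 hdv le_rfl hm)
      · exact T.n2' hd g2.memD hU hv hY g4 hed h1 g1 h2 (hvw.trans hwY) (T.exit_le_s h ha)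
          (T.exit_le_s g2 g3) hsY

theorem Dat.desc3 (T : Dat P) {x m Y : P} (hx : x ∈ T.D) (hmU : m ∈ T.U) (hY : Y ∈ T.U)
    (hxm : x < m) (hmY : m < Y) (hsY : T.s ≤ Y) : ∀ v : P, ∀ d : P, d < v → v < x → T.ExD v d →
      T.be v ≤ v → T.bb d v ≤ v → False := by
  intro v
  induction v using T.wf.induction with
  | _ v ih =>
    intro d hdv hvw h ha hm
    have hd : d ∈ T.D := h.memD
    have hv : v ∈ T.U := h.memU
    have h1 : d < T.bb d v := T.lt_bb hd hdv h ha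
    have h2 : T.bb d v < v := lt_of_le_of_ne hm (T.bb_ne_right hd hv hdv)
    rcases T.cov (T.bb d v) with hD | hU
    · exact T.n1 d hd _ hD x hx m hmU Y hY h1 (h2.trans hvw) hxm hmY (T.exit_le_s h ha) hsY
    · obtain ⟨e, g1, g2, g3, g4⟩ := T.mid hdv h ha hm hU
      by_cases hed : d = e
      · subst hed
        exact ih _ h2 d h1 (h2.trans hvw) g2 g3 (T.b5 d hd d hd _ hU v hv h1 hdv le_rfl hm)
      · exact T.n1' hd g2.memD hx hmU hY g4 hed (hdv.trans hvw) (g1.trans (h2.trans hvw)) hxm hmY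
          (T.exit_le_s h ha) (T.exit_le_s g2 g3) hsY

end Pool.Agent.Helper43.DV
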