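import Pool.Agent.Helper43.DV.Core

/-! There is no such data: the end of the proof. -/

set_option autoImplicit false

universe u

namespace Pool.Agent.Helper43.DV

open Pool.Agent.Helper73.DU (Ex Ex.memU Ex.memD Ex.congr)

variable {P : Type u} [PartialOrder P]

/-- the ascent: the order dual of `desc` -/
theorem Dat.asc (T : Dat P) {w Y : P} (hw : w ∈ T.D) (hY : Y ∈ T.D) (hwY : Y < w)
    (hsY : Y ≤ T.s) (v d : P) (h1 : v < d) (h2 : w < v) (h3 : T.dual.ExD v d) (h4 : v ≤ T.cc v)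
    (h5 : v ≤ T.bb v d) : False :=
  T.dual.desc (w := w) (Y := Y) hw hY hwY hsY v d h1 h2 h3 h4 h5

theorem Dat.lemA (T : Dat P) {e Y : P} (heY : e < Y) (hes : e ≤ T.s)
    (hsY : T.s ≤ Y) (hX : T.dual.ExD e Y) (hmU : T.bb e Y ∈ T.U) (hmY : T.bb e Y < Y)
    (hem : e < T.bb e Y) (hkD : T.bb e (T.bb e Y) ∈ T.D) (hek : e < T.bb e (T.bb e Y))
    (hkm : T.bb e (T.bb e Y) < T.bb e Y) : False := by
  have heD : e ∈ T.D := hX.memU
  have hYU : Y ∈ T.U := hX.memD
  have hsc : T.s ≤ T.cc e := T.cs e heD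
  have hec : e ≤ T.cc e := hes.trans hsc
  set m := T.bb e Y with hm
  set k := T.bb e m with hk
  have hkc : k ≤ T.cc e := T.b4 e heD m hmU hem
  have hcc : T.cc e ≤ T.cc k := T.cm e heD k hkD hek.le
  have hkck : k ≤ T.cc k := hkc.trans hcc
  have hcY : T.cc e ≤ Y := (T.dual.exit_le hX hec).1
  obtain ⟨Y', hY'⟩ : ∃ Z : P, T.dual.ExD k Z := T.dual.exists_exit k hkD hkck
  have hY'U : Y' ∈ T.U := hY'.memD
  have hckY' : T.cc k ≤ Y' := (T.dual.exit_le hY' hkck).1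
  have hsY' : T.s ≤ Y' := (T.cs k hkD).trans hckY'
  have hcmp : Y' ≤ Y ∨ Y ≤ Y' := T.dual.cmp hX hY' hek.le hkc
  have hYY' : Y' = Y := by
    by_contra hne
    rcases T.cov (T.cc e) with hD | hU
    · have hXc : T.dual.ExD (T.cc e) Y := by
        cases hX with
        | one g1 g2 => exact (T.dis _ hD g2).elim
        | step g1 g2 g3 => exact g3
      rcases eq_or_lt_of_le hkc with h | h
      · rw [h] at hY'
        exact hne (T.dual.uniq hY' hXc)
      · have h1 : T.cc e < Y := T.lt_DU hD hYU hcY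
        have h2 : T.cc e < Y' := T.lt_DU hD hY'U (hcc.trans hckY')
        rcases hcmp with h3 | h3
        · exact T.n1 e heD k hkD _ hD Y' hY'U Y hYU hek h h2 (lt_of_le_of_ne h3 hne) hes hsY
        · exact T.n1 e heD k hkD _ hD Y hYU Y' hY'U hek h h1 (lt_of_le_of_ne h3 (Ne.symm hne))
            hes hsY'
    · have hYc : Y = T.cc e := by
        cases hX with
        | one g1 g2 => rfl
        | step g1 g2 g3 => exact (T.dis _ g2 hU).elim
      have h3 : Y ≤ Y' := hYc ▸ hcc.trans hckY'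
      exact T.n2 e heD k hkD m hmU Y hYU Y' hY'U hek hkm hmY (lt_of_le_of_ne h3 (Ne.symm hne))
        hes hsY'
  subst hYY'
  have hkY : k < Y' := hkm.trans hmY
  have htY : T.bb k Y' < Y' := T.dual.lt_bb (d := Y') (v := k) hYU hkY hY' hkck
  have hmt : m ≤ T.bb k Y' := T.b5 e heD k hkD Y' hYU Y' hYU heY hkY hek.le le_rfl
  have hkt : k < T.bb k Y' := lt_of_lt_of_le hkm hmt
  rcases T.cov (T.bb k Y') with htD | htU
  · have htc : T.bb k Y' ≤ T.cc k := T.b4 k hkD Y' hYU hkY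
    have htct : T.bb k Y' ≤ T.cc (T.bb k Y') := htc.trans (T.cm k hkD _ htD hkt.le)
    obtain ⟨Z, hZ⟩ : ∃ Z : P, T.dual.ExD (T.bb k Y') Z := T.dual.exists_exit _ htD htct
    have hZU : Z ∈ T.U := hZ.memD
    have htZ : T.bb k Y' < Z := T.lt_DU htD hZU (htct.trans (T.dual.exit_le hZ htct).1)
    have hsZ : T.s ≤ Z := (T.cs _ htD).trans (T.dual.exit_le hZ htct).1
    have hc2 : Z ≤ Y' ∨ Y' ≤ Z := T.dual.cmp hY' hZ hkt.le htc
    have hZY : Z = Y' := by
      by_contra hne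
      rcases hc2 with h3 | h3
      · exact T.n1 e heD k hkD _ htD Z hZU Y' hYU hek hkt htZ (lt_of_le_of_ne h3 hne) hes hsY
      · exact T.n1 e heD k hkD _ htD Y' hYU Z hZU hek hkt htY (lt_of_le_of_ne h3 (Ne.symm hne))
          hes hsZ
    subst hZY
    exact T.asc hkD heD hek hes _ Z htZ hkt hZ htct
      (T.b5 k hkD _ htD Z hYU Z hYU hkY htY hkt.le le_rfl)
  · rcases eq_or_lt_of_le hmt with h | h
    · have hqU : T.bb k m ≤ m := by
        have h1 := T.b5 k hkD k hkD m hmU Y' hYU hkm hkY le_rfl hmY.le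
        rwa [← h] at h1
      have hkq : k ≤ T.bb k m := T.b5 e heD k hkD m hmU m hmU hem hkm hek.le le_rfl
      have h1 : k < T.bb k m := lt_of_le_of_ne hkq (T.bb_ne_left hkD hmU hkm).symm
      have h2 : T.bb k m < m := lt_of_le_of_ne hqU (T.bb_ne_right hkD hmU hkm)
      exact T.n3 heD hkD hmU hYU hek h1 h2 hmY hes hsY
    · exact T.n2 e heD k hkD m hmU _ htU Y' hYU hek hkm h htY hes hsY

theorem Dat.lemB (T : Dat P) {e Y : P} (heY : e < Y) (hes : e ≤ T.s)
    (hsY : T.s ≤ Y) (hX : T.dual.ExD e Y) (hmU : T.bb e Y ∈ T.U) (hmY : T.bb e Y < Y)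
    (hem : e < T.bb e Y) (hE : T.ExD (T.bb e Y) e) (ha : T.be (T.bb e Y) ≤ T.bb e Y) :
    False := by
  have heD : e ∈ T.D := hX.memU
  have hYU : Y ∈ T.U := hX.memD
  have h1 : e < T.bb e (T.bb e Y) := T.lt_bb heD hem hE ha
  have h2 : T.bb e (T.bb e Y) ≤ T.bb e Y :=
    T.b5 e heD e heD _ hmU Y hYU hem heY le_rfl hmY.le
  have h3 : T.bb e (T.bb e Y) < T.bb e Y := lt_of_le_of_ne h2 (T.bb_ne_right heD hmU hem)
  rcases T.cov (T.bb e (T.bb e Y)) with hD | hU
  · exact T.lemA heY hes hsY hX hmU hmY hem hD h1 h3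
  · obtain ⟨e', g1, g2, g3, g4⟩ := T.mid hem hE ha h2 hU
    by_cases hee : e = e'
    · subst hee
      exact T.desc hmU hYU hmY hsY _ e h1 h3 g2 g3
        (T.b5 e heD e heD _ hU _ hmU h1 hem le_rfl h2)
    · exact T.n2' heD g2.memD hU hmU hYU g4 hee h1 g1 h3 hmY hes (T.exit_le_s g2 g3) hsY

/-- a core pair -/
def Dat.Core (T : Dat P) (d Y : P) : Prop :=
  d ≤ T.s ∧ T.s ≤ Y ∧ d < Y ∧ T.ExD Y d ∧ T.be Y ≤ Y ∧ T.dual.ExD d Y ∧ d ≤ T.cc d

theorem Dat.Core.dual {T : Dat P} {d Y : P} (h : T.Core d Y) : Dat.Core T.dual (P := Pᵒᵈ) Y d :=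
  ⟨h.2.1, h.1, h.2.2.1, h.2.2.2.2.2.1, h.2.2.2.2.2.2, h.2.2.2.1, h.2.2.2.2.1⟩

/-- a core pair with an upper middle point moves down -/
theorem Dat.down (T : Dat P) {d Y : P} (hc : T.Core d Y) (hmU : T.bb d Y ∈ T.U) :
    ∃ e : P, T.Core e (T.bb d Y) ∧ e < d ∧ T.bb e Y = T.bb d Y ∧ (T.s = d ∨ T.s = T.bb d Y) := by
  obtain ⟨hds, hsY, hdY, h, ha, h', ha'⟩ := hc
  have hdD : d ∈ T.D := h.memD
  have hYU : Y ∈ T.U := h.memU
  have hdm : d < T.bb d Y := T.lt_bb hdD hdY h ha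
  have hmY : T.bb d Y < Y := T.dual.lt_bb (d := Y) (v := d) hYU hdY h' ha'
  obtain ⟨e, hem, hE, hbm, hcmp⟩ := T.mid hdY h ha hmY.le hmU
  have heD : e ∈ T.D := hE.memD
  have hes : e ≤ T.s := T.exit_le_s hE hbm
  by_cases hne : d = e
  · subst hne
    exact (T.lemB hdY hds hsY h' hmU hmY hdm hE hbm).elim
  have hbY : T.be Y ≤ T.bb d Y := T.b1 d hdD Y hYU hdY
  have hbb : T.be (T.bb d Y) ≤ T.be Y := T.bm _ hmU Y hYU hmY.le
  have heb : e ≤ T.be Y := (T.exit_le hE hbm).1.trans hbb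
  rcases T.cov (T.be Y) with hbD | hbU
  swap
  · have hEb : T.ExD (T.be Y) d := by
      cases h with
      | one g1 g2 => exact (T.dis _ g2 hbU).elim
      | step g1 g2 g3 => exact g3
    rcases eq_or_lt_of_le hbY with h1 | h1
    · rw [h1] at hEb
      exact (hne (T.uniq hEb hE)).elim
    · exact (T.n2' hdD heD hbU hmU hYU hcmp hne
        (T.lt_DU hdD hbU (T.exit_le h ha).1) (T.lt_DU heD hbU heb) h1 hmY hds hes hsY).elim
  have hdb : d = T.be Y := by
    cases h with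
    | one g1 g2 => rfl
    | step g1 g2 g3 => exact (T.dis _ hbD g2).elim
  have hed : e < d := by
    refine lt_of_le_of_ne ?_ (Ne.symm hne)
    rw [hdb]
    exact heb
  have heY : e < Y := hed.trans hdY
  have hdn : d ≤ T.bb e Y := by
    have h1 := T.b1 e heD Y hYU heY
    rwa [← hdb] at h1
  have hnm : T.bb e Y ≤ T.bb d Y := T.b5 e heD d hdD Y hYU Y hYU heY hdY hed.le le_rfl
  rcases eq_or_lt_of_le hnm with h1 | h1
  swap
  · exfalso
    rcases eq_or_lt_of_le hdn with h2 | h2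
    swap
    · exact T.n3 heD hdD hmU hYU hed h2 h1 hmY hes hsY
    have hk1 : e < T.bb e (T.bb d Y) := T.lt_bb heD hem hE hbm
    have hkd : T.bb e (T.bb d Y) ≤ d := by
      have h3 := T.b5 e heD e heD _ hmU Y hYU hem heY le_rfl hmY.le
      rwa [← h2] at h3
    rcases T.cov (T.bb e (T.bb d Y)) with hkD | hkU
    · rcases eq_or_lt_of_le hkd with h3 | h3
      · have h4 : d ≤ T.bb d (T.bb d Y) := by
          have h5 := T.b5 e heD d hdD _ hmU _ hmU hem hdm hed.le le_rfl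
          rwa [h3] at h5
        have h5 : T.bb d (T.bb d Y) ≤ T.bb d Y :=
          T.b5 d hdD d hdD _ hmU Y hYU hdm hdY le_rfl hmY.le
        exact T.n3 heD hdD hmU hYU hed (lt_of_le_of_ne h4 (T.bb_ne_left hdD hmU hdm).symm)
          (lt_of_le_of_ne h5 (T.bb_ne_right hdD hmU hdm)) hmY hes hsY
      · exact T.n1 e heD _ hkD d hdD _ hmU Y hYU hk1 h3 hdm hmY hes hsY
    · have hkd' : T.bb e (T.bb d Y) < d := T.lt_UD hkU hdD hkd
      have hkm : T.bb e (T.bb d Y) ≤ T.bb d Y := hkd.trans hdm.le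
      obtain ⟨e', g1, g2, g3, g4⟩ := T.mid hem hE hbm hkm hkU
      by_cases hee : e = e'
      · subst hee
        exact T.desc3 hdD hmU hYU hdm hmY hsY _ e hk1 hkd' g2 g3
          (T.b5 e heD e heD _ hkU _ hmU hk1 hem le_rfl hkm)
      · exact T.n1' heD g2.memD hdD hmU hYU g4 hee hed (g1.trans hkd') hdm hmY hes
          (T.exit_le_s g2 g3) hsY
  have hec : e ≤ T.cc e := hes.trans (T.cs e heD)
  obtain ⟨Y', hY'⟩ : ∃ Z : P, T.dual.ExD e Z := T.dual.exists_exit e heD hec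
  have hY'U : Y' ∈ T.U := hY'.memD
  have hcY' : T.cc e ≤ Y' := (T.dual.exit_le hY' hec).1
  have hsY' : T.s ≤ Y' := (T.cs e heD).trans hcY'
  have hmY' : T.bb d Y ≤ Y' := by
    rw [← h1]
    exact (T.b4 e heD Y hYU heY).trans hcY'
  have hc2 : Y ≤ Y' ∨ Y' ≤ Y := T.dual.cmp hY' h' hed.le (hds.trans (T.cs e heD))
  have hYY : Y' = T.bb d Y := by
    by_contra hn
    have hlt : T.bb d Y < Y' := lt_of_le_of_ne hmY' (Ne.symm hn)
    by_cases hn2 : Y' = Y
    · subst hn2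
      have h2 : T.bb e Y' ∈ T.U := h1 ▸ hmU
      exact T.lemB heY hes hsY hY' h2 (h1 ▸ hmY) (h1 ▸ hem) (h1 ▸ hE) (h1 ▸ hbm)
    · rcases hc2 with h3 | h3
      · exact T.n2 e heD d hdD _ hmU Y hYU Y' hY'U hed hdm hmY (lt_of_le_of_ne h3 (Ne.symm hn2))
          hes hsY'
      · exact T.n2 e heD d hdD _ hmU Y' hY'U Y hYU hed hdm hlt (lt_of_le_of_ne h3 hn2) hes hsY
  subst hYY
  refine ⟨e, ⟨hes, hsY', hem, hE, hbm, hY', hec⟩, hed, h1, ?_⟩
  by_contra hn
  have h2 : T.s ≠ d := fun h => hn (Or.inl h)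
  have h3 : T.s ≠ T.bb d Y := fun h => hn (Or.inr h)
  exact T.n3 heD hdD hmU hYU hed (lt_of_le_of_ne hds h2.symm) (lt_of_le_of_ne hsY' h3) hmY hes hsY

theorem Dat.core_upper (T : Dat P) {d Y : P} (hc : T.Core d Y) (hmU : T.bb d Y ∈ T.U) :
    False := by
  have hdD : d ∈ T.D := hc.2.2.2.1.memD
  obtain ⟨e, hc1, hed, hbb, hs⟩ := T.down hc hmU
  have heD : e ∈ T.D := hc1.2.2.2.1.memD
  rcases T.cov (T.bb e (T.bb d Y)) with hD | hU
  swap
  · obtain ⟨e2, -, -, -, hs2⟩ := T.down hc1 hU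
    rcases hs with hs | hs
    · rcases hs2 with hs2 | hs2
      · exact hed.ne (hs2.symm.trans hs)
      · exact T.dis d hdD (hs.symm.trans hs2 ▸ hU)
    · rcases hs2 with hs2 | hs2
      · exact T.dis e heD (hs2.symm.trans hs ▸ hmU)
      · exact T.bb_ne_right heD hmU hc1.2.2.1 (hs2.symm.trans hs)
  · obtain ⟨Y3, hc3', hY3', hbb3', hs3'⟩ := T.dual.down hc1.dual hD
    have hc3 : T.Core (T.bb e (T.bb d Y)) Y3 := Dat.Core.dual (T := T.dual) hc3'
    have hY3 : T.bb d Y < Y3 := hY3'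
    have hbb3 : T.bb e Y3 = T.bb e (T.bb d Y) := hbb3'
    have hs3 : T.s = T.bb d Y ∨ T.s = T.bb e (T.bb d Y) := hs3'
    rcases hs3 with hs3 | hs3
    swap
    · rcases hs with hs | hs
      · have h1 : T.bb e (T.bb d Y) = d := hs3.symm.trans hs
        have h2 : T.dual.ExD d Y3 := h1 ▸ hc3.2.2.2.2.2.1
        have h3 : Y3 = Y := T.dual.uniq h2 hc.2.2.2.2.2.1
        rw [h3, hbb] at hbb3
        exact T.dis _ hD (hbb3 ▸ hmU)
      · exact T.bb_ne_right heD hmU hc1.2.2.1 (hs3.symm.trans hs)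
    · rcases T.cov (T.bb (T.bb e (T.bb d Y)) Y3) with hD4 | hU4
      · obtain ⟨Y4, -, -, -, hs4'⟩ := T.dual.down hc3' hD4
        have hs4 : T.s = Y3 ∨ T.s = T.bb (T.bb e (T.bb d Y)) Y3 := hs4'
        rcases hs4 with h | h
        · exact hY3.ne (hs3.symm.trans h)
        · have h1 : T.bb (T.bb e (T.bb d Y)) Y3 = T.bb d Y := h.symm.trans hs3
          rw [h1] at hD4
          exact T.dis _ hD4 hmU
      · obtain ⟨e3, hc4, -, hbb4, hs4⟩ := T.down hc3 hU4
        rcases hs4 with h | h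
        · exact T.bb_ne_right heD hmU hc1.2.2.1 (h.symm.trans hs3)
        · have h1 : T.bb (T.bb e (T.bb d Y)) Y3 = T.bb d Y := h.symm.trans hs3
          have h2 : T.ExD (T.bb d Y) e3 := h1 ▸ hc4.2.2.2.1
          have h3 : e3 = e := T.uniq h2 hc1.2.2.2.1
          rw [h3, hbb3, h1] at hbb4
          exact T.dis _ hD (hbb4.symm ▸ hmU)

theorem Dat.core (T : Dat P) {d Y : P} (hc : T.Core d Y) : False := by
  rcases T.cov (T.bb d Y) with hD | hU
  · exact T.dual.core_upper hc.dual hD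
  · exact T.core_upper hc hU

theorem Dat.upper (T : Dat P) (hs : T.s ∈ T.U) : False := by
  have h1 : T.be T.s ≤ T.s := T.bs _ hs
  obtain ⟨d, hd⟩ := T.exists_exit _ hs h1
  have hdD : d ∈ T.D := hd.memD
  have hds : d < T.s := T.lt_DU hdD hs ((T.exit_le hd h1).1.trans h1)
  have h2 : T.s ≤ T.cc d := T.cs d hdD
  have h3 : d ≤ T.cc d := hds.le.trans h2
  obtain ⟨Y, hY⟩ : ∃ Z : P, T.dual.ExD d Z := T.dual.exists_exit d hdD h3
  have hYU : Y ∈ T.U := hY.memD
  have h4 : T.s ≤ Y := h2.trans (T.dual.exit_le hY h3).1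
  have h5 : T.be Y ≤ T.s := T.bs Y hYU
  have h6 : T.be Y ≤ Y := h5.trans h4
  have hdY : d < Y := lt_of_lt_of_le hds h4
  obtain ⟨e, he⟩ := T.exists_exit Y hYU h6
  have heD : e ∈ T.D := he.memD
  have hes : e < T.s := T.lt_DU heD hs ((T.exit_le he h6).1.trans h5)
  by_cases hed : e = d
  · subst hed
    exact T.core ⟨hds.le, h4, hdY, he, h6, hY, h3⟩
  have hYs : T.s ≠ Y := by
    intro h
    rw [← h] at he
    exact hed (T.uniq he hd)
  have hsY : T.s < Y := lt_of_le_of_ne h4 hYs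
  have hc1 : e ≤ d ∨ d ≤ e := T.cmp he hd h4 h5
  have h7 : T.s ≤ T.cc e := T.cs e heD
  have h8 : e ≤ T.cc e := hes.le.trans h7
  obtain ⟨Z, hZ⟩ : ∃ Z : P, T.dual.ExD e Z := T.dual.exists_exit e heD h8
  have hZU : Z ∈ T.U := hZ.memD
  have hcZ : T.cc e ≤ Z := (T.dual.exit_le hZ h8).1
  have hsZ : T.s < Z := by
    refine lt_of_le_of_ne (h7.trans hcZ) ?_
    intro hZs
    have hce : T.cc e = T.s := le_antisymm (hcZ.trans hZs.symm.le) h7
    rcases hc1 with h | h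
    · have h9 : e < d := lt_of_le_of_ne h hed
      have h10 : d ≤ T.be Y := (T.exit_le hd h1).1.trans (T.bm _ hs Y hYU h4)
      rcases T.cov (T.be Y) with hD | hU
      · have h11 : e = T.be Y := by
          cases he with
          | one g1 g2 => rfl
          | step g1 g2 g3 => exact (T.dis _ hD g2).elim
        exact absurd (h10.trans h11.symm.le) (not_le_of_gt h9)
      · have h11 : T.ExD (T.be Y) e := by
          cases he with
          | one g1 g2 => exact (T.dis _ g2 hU).elim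
          | step g1 g2 g3 => exact g3
        rcases eq_or_lt_of_le h5 with h12 | h12
        · rw [h12] at h11
          exact hed (T.uniq h11 hd)
        · exact T.n2 e heD d hdD _ hU T.s hs Y hYU h9 (T.lt_DU hdD hU h10) h12 hsY hes.le h4
    · have h9 : T.cc d = T.s := le_antisymm (hce ▸ T.cm d hdD e heD h) h2
      have h10 : Y = T.s := by
        cases hY with
        | one g1 g2 => exact h9
        | step g1 g2 g3 =>
          have g4 : T.cc d ∈ T.D := g2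
          exact (T.dis _ g4 (h9.symm ▸ hs)).elim
      exact hYs h10.symm
  have hc2 : Z ≤ Y ∨ Y ≤ Z := by
    rcases hc1 with h | h
    · have h9 : Y ≤ Z ∨ Z ≤ Y := T.dual.cmp hZ hY h (hds.le.trans h7)
      exact h9.symm
    · have h9 : Z ≤ Y ∨ Y ≤ Z := T.dual.cmp hY hZ h (hes.le.trans h2)
      exact h9
  by_cases hZY : Z = Y
  · subst hZY
    exact T.core ⟨hes.le, h4, hes.trans hsY, he, h6, hZ, h8⟩
  · rcases hc2 with h | h
    · exact T.n2' heD hdD hs hZU hYU hc1 hed hes hds hsZ (lt_of_le_of_ne h hZY) hes.le hds.le h4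
    · exact T.n2' heD hdD hs hYU hZU hc1 hed hes hds hsY (lt_of_le_of_ne h (Ne.symm hZY))
        hes.le hds.le hsZ.le

/-- there are no such data -/
theorem Dat.false (T : Dat P) : False := by
  rcases T.cov T.s with h | h
  · exact T.dual.upper h
  · exact T.upper h

end Pool.Agent.Helper43.DV
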